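import Mathlib
import Pool.Agent.HuaFd13.Fin
import Pool.Agent.HuaFin91.Asm

/-!
Every Hua system comes from a quadratic Jordan division ring, in every characteristic.
-/

set_option autoImplicit false

open Pool.Agent.HuaVal Pool.Agent.HuaOne84

/-- Every Hua system on a nontrivial abelian group arises from a quadratic Jordan division ring.
There is no condition on the characteristic (or torsion) of the group. -/
theorem Pool.Agent.Results.MP_e10bb1_al.AllHuaSystems.result :
  ∀ (A : Type) [AddCommGroup A], Nontrivial A →
    ∀ j : A → Option A → Option A, IsHua j → FromJordan j := by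
  intro A _ hnt j hj
  haveI := hnt
  exact Pool.Agent.HuaFin91.fromJordan_of_exponent (S := fun _ => True)
    (fun p hp _ A' _ hA' J hJ => Pool.Agent.HuaFd13.T3_prime hp hA' hJ) A (fun _ _ _ => trivial) j hj
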